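import Pool.Agent.Y811.PC.Stm

/-!
The abstract comparison lemma.
-/

set_option autoImplicit false

namespace Pool.Agent.Y658.PC

open Pool.Agent.Y811.PC

theorem gs_succ (L : ℂ) (k : ℕ) : gs L (k + 1) = 1 + L * gs L k := by
  unfold gs
  rw [Finset.sum_range_succ', Finset.mul_sum, pow_zero, add_comm]
  congr 1
  refine Finset.sum_congr rfl fun i _ => ?_
  rw [pow_succ']

/-- **The abstract comparison lemma.** -/
theorem t_BOOT : S_BOOT := by
  intro n k₀ T L b K h e Gd hK he hk₀ hG0 hstep hbig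
  have hK1 : 1 ≤ K := by
    have := hK 0 (Nat.zero_le _)
    rwa [pow_zero] at this
  -- the uniform bound from the exact one
  have hunif : ∀ k, k₀ ≤ k → k ≤ n →
      ‖T k + b * gs L k‖ ≤ ‖L‖ ^ (k - k₀) * ‖T k₀ + b * gs L k₀‖ +
        ∑ j ∈ Finset.Ico k₀ k, ‖L‖ ^ (k - 1 - j) * e j →
      ‖T k + b * gs L k‖ ≤ K * (‖T k₀ + b * gs L k₀‖ + ∑ j ∈ Finset.Ico k₀ k, e j) := by
    intro k hk hkn hD
    refine hD.trans ?_
    rw [mul_add, Finset.mul_sum]
    refine add_le_add (mul_le_mul_of_nonneg_right (hK _ (by omega)) (norm_nonneg _)) ?_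
    exact Finset.sum_le_sum fun j _ => mul_le_mul_of_nonneg_right (hK _ (by omega)) (he j)
  have hT : ∀ k, k₀ ≤ k → k ≤ n →
      ‖T k + b * gs L k‖ ≤ K * (‖T k₀ + b * gs L k₀‖ + ∑ j ∈ Finset.Ico k₀ k, e j) →
      h k ≤ ‖T k‖ := by
    intro k hk hkn hD
    have h1 := hbig k hk hkn
    have h2 : ‖b * gs L k‖ ≤ ‖T k + b * gs L k‖ + ‖T k‖ := by
      have h3 : b * gs L k = (T k + b * gs L k) - T k := by ring
      calc ‖b * gs L k‖ = ‖(T k + b * gs L k) - T k‖ := by rw [← h3]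
        _ ≤ _ := norm_sub_le _ _
    linarith
  have main : ∀ k, k₀ ≤ k → k ≤ n → Gd k ∧
      ‖T k + b * gs L k‖ ≤ ‖L‖ ^ (k - k₀) * ‖T k₀ + b * gs L k₀‖ +
        ∑ j ∈ Finset.Ico k₀ k, ‖L‖ ^ (k - 1 - j) * e j := by
    intro k hk
    induction k, hk using Nat.le_induction with
    | base =>
      intro _
      refine ⟨hG0, ?_⟩
      rw [Nat.sub_self, pow_zero, one_mul, Finset.Ico_self, Finset.sum_empty, add_zero]
    | succ k hk ih =>
      intro hkn
      obtain ⟨hG, hD⟩ := ih (by omega)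
      have hTk := hT k hk (by omega) (hunif k hk (by omega) hD)
      obtain ⟨h1, h2⟩ := hstep k hk (by omega) hG hTk
      have hD' : ‖T (k + 1) + b * gs L (k + 1)‖ ≤
          ‖L‖ ^ (k + 1 - k₀) * ‖T k₀ + b * gs L k₀‖ +
            ∑ j ∈ Finset.Ico k₀ (k + 1), ‖L‖ ^ (k + 1 - 1 - j) * e j := by
        have e1 : T (k + 1) + b * gs L (k + 1) =
            (T (k + 1) - (L * T k - b)) + L * (T k + b * gs L k) := by
          rw [gs_succ]
          ring
        have e2 : ∑ j ∈ Finset.Ico k₀ (k + 1), ‖L‖ ^ (k + 1 - 1 - j) * e j =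
            ‖L‖ * ∑ j ∈ Finset.Ico k₀ k, ‖L‖ ^ (k - 1 - j) * e j + e k := by
          rw [Finset.sum_Ico_succ_top hk, Nat.add_sub_cancel, Nat.sub_self, pow_zero, one_mul,
            Finset.mul_sum]
          congr 1
          refine Finset.sum_congr rfl fun j hj => ?_
          rw [Finset.mem_Ico] at hj
          have e3 : k - j = (k - 1 - j) + 1 := by omega
          rw [e3, pow_succ']
          ring
        have e4 : k + 1 - k₀ = (k - k₀) + 1 := by omega
        rw [e1, e2, e4, pow_succ']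
        calc _ ≤ ‖T (k + 1) - (L * T k - b)‖ + ‖L * (T k + b * gs L k)‖ := norm_add_le _ _
          _ ≤ e k + ‖L‖ * (‖L‖ ^ (k - k₀) * ‖T k₀ + b * gs L k₀‖ +
              ∑ j ∈ Finset.Ico k₀ k, ‖L‖ ^ (k - 1 - j) * e j) := by
            rw [norm_mul]
            exact add_le_add h1 (mul_le_mul_of_nonneg_left hD (norm_nonneg _))
          _ = _ := by ring
      exact ⟨h2 (hT (k + 1) (by omega) hkn (hunif (k + 1) (by omega) hkn hD')), hD'⟩
  intro k hk hkn
  obtain ⟨h1, h2⟩ := main k hk hkn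
  have h3 := hunif k hk hkn h2
  exact ⟨h1, hT k hk hkn h3, h3⟩

end Pool.Agent.Y658.PC
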